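import Mathlib
import Pool.Agent.Lib.MP_6e9b54_lc.RyllNardzewski
import Pool.Agent.Lib.MP_6e9b54_lc.Minimality

/-!
# Minimality of the pointwise topology on the endomorphism monoid of an omega-categorical structure

For every countable omega-categorical structure `A`, the topology of pointwise convergence is
minimal among the Hausdorff semigroup topologies on `End(A)`.  This is the negative answer to the
question whether some countable omega-categorical structure has an endomorphism monoid with a
Hausdorff semigroup topology strictly coarser than the topology of pointwise convergence.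

Endomorphisms of `A` are the homomorphisms `A →[L] A` of Mathlib, the monoid operation is
composition `FirstOrder.Language.Hom.comp`, and omega-categoricity is Mathlib's
`Cardinal.Categorical` for the cardinal `ℵ₀` and the complete theory of `A`.
-/

open FirstOrder FirstOrder.Language Cardinal

universe u v w

namespace Pool.Agent.Results.MP_6e9b54_lc.PointwiseMinimal

/-- The topology of pointwise convergence on `End(A)`: the topology induced from the product
topology on `A → A`, where `A` carries the discrete topology `⊥`. -/
@[instance_reducible]
def pointwise (L : FirstOrder.Language.{u, v}) (A : Type w) [L.Structure A] :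
    TopologicalSpace (A →[L] A) :=
  TopologicalSpace.induced (fun (f : A →[L] A) (a : A) => f a)
    (@Pi.topologicalSpace A (fun _ => A) (fun _ => ⊥))

/-- `τ` is a Hausdorff semigroup topology on `End(A)`: it is Hausdorff, and composition
`End(A) × End(A) → End(A)` is (jointly) continuous. -/
def IsHausdorffSemigroupTopology {L : FirstOrder.Language.{u, v}} {A : Type w} [L.Structure A]
    (τ : TopologicalSpace (A →[L] A)) : Prop :=
  @T2Space (A →[L] A) τ ∧
    @Continuous ((A →[L] A) × (A →[L] A)) (A →[L] A) (@instTopologicalSpaceProd _ _ τ τ) τ
      (fun p => p.1.comp p.2)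

/-- For every countable omega-categorical structure `A` (in a countable language), the topology of
pointwise convergence is minimal among the Hausdorff semigroup topologies on `End(A)`. -/
theorem result (L : FirstOrder.Language.{u, v}) [Countable L.Symbols]
    (A : Type w) [L.Structure A] [Countable A] [Infinite A]
    (hcat : (ℵ₀ : Cardinal.{w}).Categorical (L.completeTheory A)) :
    IsHausdorffSemigroupTopology (pointwise L A) ∧
    ∀ τ : TopologicalSpace (A →[L] A), IsHausdorffSemigroupTopology τ →
      (∀ s : Set (A →[L] A), @IsOpen _ τ s → @IsOpen _ (pointwise L A) s) →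
        τ = pointwise L A := by
  classical
  constructor
  · let _ : TopologicalSpace A := ⊥
    have : DiscreteTopology A := ⟨rfl⟩
    let _ : TopologicalSpace (A →[L] A) := pointwise L A
    have hind : Topology.IsInducing (fun (f : A →[L] A) (a : A) => f a) := ⟨rfl⟩
    have heval : ∀ a : A, Continuous (fun f : A →[L] A => f a) := fun a =>
      (continuous_apply a).comp hind.continuous
    refine ⟨?_, ?_⟩
    · refine T2Space.of_injective_continuous (f := fun (f : A →[L] A) (a : A) => f a) ?_
        hind.continuous
      intro f g h
      exact Language.Hom.ext (fun a => congrFun h a)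
    · rw [hind.continuous_iff, continuous_pi_iff]
      intro a
      rw [continuous_iff_continuousAt]
      rintro ⟨f, g⟩
      have h1 : ∀ᶠ p : (A →[L] A) × (A →[L] A) in nhds (f, g), p.2 a = g a := by
        have := ((heval a).comp continuous_snd).continuousAt
          (x := ((f, g) : (A →[L] A) × (A →[L] A)))
        exact this.eventually_mem (s := {g a}) (by simp [nhds_discrete])
      have h2 : ∀ᶠ p : (A →[L] A) × (A →[L] A) in nhds (f, g), p.1 (g a) = f (g a) := by
        have := ((heval (g a)).comp continuous_fst).continuousAt
          (x := ((f, g) : (A →[L] A) × (A →[L] A)))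
        exact this.eventually_mem (s := {f (g a)}) (by simp [nhds_discrete])
      refine tendsto_nhds_of_eventually_eq ?_
      filter_upwards [h1, h2] with p hp1 hp2
      simp only [Function.comp, Language.Hom.comp_apply]
      rw [hp1, hp2]
  · rintro τ ⟨hT2, hcomp⟩ hle
    obtain ⟨e⟩ : Nonempty (ℕ ≃ A) := ⟨(nonempty_denumerable A).some.eqv.symm⟩
    exact Pool.Agent.Lib.MP_6e9b54_lc.eq_pw_of_oligomorphic e
      (fun n => Pool.Agent.Lib.MP_6e9b54_lc.finite_orbits hcat (Fin n ⊕ Fin n)) τ hT2 hcomp hle

end Pool.Agent.Results.MP_6e9b54_lc.PointwiseMinimal
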